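import Mathlib

namespace Pool.Agent.Results.MP_6784b8_co.DoubleBroom

open SimpleGraph Finset

/-- The suspension: one new vertex `none` joined to every vertex. -/
def susp {V : Type} (H : SimpleGraph V) : SimpleGraph (Option V) where
  Adj
    | some a, some b => H.Adj a b
    | some _, none => True
    | none, some _ => True
    | none, none => False
  symm := ⟨by rintro (a | a) (b | b) h <;> first | exact h.symm | exact h⟩
  loopless := ⟨by rintro (a | a) h <;> first | exact h.ne rfl | exact h⟩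

/-- `f(n,k)`: the maximum over `n₀ + n₁ = n` of `n₀ n₁ + ⌊(k-1) n₀ / 2⌋`. -/
def f (n k : ℕ) : ℕ := (range (n + 1)).sup (fun a => a * (n - a) + (k - 1) * a / 2)

def E : List (Fin 7 × Fin 7) := [(0, 2), (1, 2), (0, 3), (0, 4), (1, 5), (1, 6)]

def T : SimpleGraph (Fin 7) where
  Adj a b := (a, b) ∈ E ∨ (b, a) ∈ E
  symm := ⟨fun _ _ h => h.symm⟩
  loopless := ⟨by decide⟩

instance : DecidableRel T.Adj := fun a b => inferInstanceAs (Decidable ((a, b) ∈ E ∨ (b, a) ∈ E))

lemma T_tree : T.IsTree := by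
  rw [isTree_iff_connected_and_card]
  refine ⟨by decide +kernel, ?_⟩
  rw [Nat.card_eq_fintype_card, Nat.card_eq_fintype_card, ← edgeFinset_card]
  decide +kernel

def G (j : ℕ) : SimpleGraph (Bool × Fin j × Bool) where
  Adj a b := a.1 ≠ b.1 ∨ (a.1 = b.1 ∧ a.2.1 = b.2.1 ∧ a.2.2 ≠ b.2.2)
  symm := ⟨fun a b h => by
    rcases h with h | h
    · exact Or.inl h.symm
    · exact Or.inr ⟨h.1.symm, h.2.1.symm, h.2.2.symm⟩⟩
  loopless := ⟨fun a h => by simp at h⟩

instance (j : ℕ) : DecidableRel (G j).Adj := fun a b => by unfold G; infer_instance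

def mate {j : ℕ} (a : Bool × Fin j × Bool) : Bool × Fin j × Bool := (a.1, a.2.1, !a.2.2)

lemma adj_iff {j : ℕ} (a b : Bool × Fin j × Bool) : (G j).Adj a b ↔ a.1 ≠ b.1 ∨ b = mate a := by
  obtain ⟨a1, a2, a3⟩ := a
  obtain ⟨b1, b2, b3⟩ := b
  simp only [G, mate, Prod.mk.injEq]
  cases a3 <;> cases b3 <;> simp [eq_comm]

lemma three {j : ℕ} {v x a b c : Bool × Fin j × Bool} (hx : (G j).Adj v x) (ha : (G j).Adj v a)
    (hb : (G j).Adj v b) (hc : (G j).Adj v c) (xa : (G j).Adj x a) (xb : (G j).Adj x b)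
    (xc : (G j).Adj x c) (ab : a ≠ b) (ac : a ≠ c) (bc : b ≠ c) : x = mate v := by
  rw [adj_iff] at *
  rcases hx with hx | hx
  · have key : ∀ y, (v.1 ≠ y.1 ∨ y = mate v) → (x.1 ≠ y.1 ∨ y = mate x) →
        y = mate v ∨ y = mate x := by
      intro y h1 h2
      rcases h1 with h1 | h1
      · rcases h2 with h2 | h2
        · exfalso
          revert hx h1 h2
          cases v.1 <;> cases x.1 <;> cases y.1 <;> simp
        · exact Or.inr h2
      · exact Or.inl h1
    have := key a ha xa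
    have := key b hb xb
    have := key c hc xc
    grind
  · exact hx

lemma free (j : ℕ) : (susp T).Free (G j) := by
  rintro ⟨φ⟩
  have hv : ∀ i, (G j).Adj (φ none) (φ (some i)) := fun i => φ.toHom.map_adj trivial
  have he : ∀ a b, T.Adj a b → (G j).Adj (φ (some a)) (φ (some b)) :=
    fun a b h => φ.toHom.map_adj h
  have hn : ∀ a b : Fin 7, a ≠ b → φ (some a) ≠ φ (some b) :=
    fun a b h e => h (Option.some.inj (φ.injective e))
  have h0 := three (hv 0) (hv 2) (hv 3) (hv 4) (he 0 2 (by decide)) (he 0 3 (by decide))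
    (he 0 4 (by decide)) (hn _ _ (by decide)) (hn _ _ (by decide)) (hn _ _ (by decide))
  have h1 := three (hv 1) (hv 2) (hv 5) (hv 6) (he 1 2 (by decide)) (he 1 5 (by decide))
    (he 1 6 (by decide)) (hn _ _ (by decide)) (hn _ _ (by decide)) (hn _ _ (by decide))
  exact hn 0 1 (by decide) (h0.trans h1.symm)

lemma deg (j : ℕ) (v : Bool × Fin j × Bool) : (G j).degree v = 2 * j + 1 := by
  have : (G j).neighborFinset v = insert (mate v) ({!v.1} ×ˢ univ) := by
    ext b
    simp only [mem_neighborFinset, adj_iff, mem_insert, mem_product, mem_singleton, mem_univ,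
      and_true]
    rw [or_comm]
    refine or_congr_right ?_
    cases v.1 <;> cases b.1 <;> simp
  rw [← card_neighborFinset_eq_degree, this, card_insert_of_notMem (by simp [mate])]
  simp [mul_comm]

theorem result :
    ∃ (t k : ℕ) (S : SimpleGraph (Fin t)) (c : Fin t → Bool), S.IsTree ∧ 2 ≤ t ∧
      (∀ a b, S.Adj a b → c a ≠ c b) ∧ (univ.filter (fun a => c a = true)).card = k ∧
      k ≤ (univ.filter (fun a => c a = false)).card ∧
      ∀ N : ℕ, ∃ n, N ≤ n ∧ f n k < extremalNumber n (susp S) := by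
  refine ⟨7, 2, T, fun a => decide (a.val < 2), T_tree, by norm_num, by decide, by decide,
    by decide, fun N => ⟨4 * (N + 1), by omega, ?_⟩⟩
  have h1 := card_edgeFinset_le_extremalNumber (free (N + 1))
  have h2 := (G (N + 1)).sum_degrees_eq_twice_card_edges
  have hc : Fintype.card (Bool × Fin (N + 1) × Bool) = 4 * (N + 1) := by
    simp; ring
  simp only [deg, sum_const, card_univ, smul_eq_mul, hc] at h2
  rw [hc] at h1
  refine lt_of_lt_of_le ?_ h1
  rw [f, Finset.sup_lt_iff (by simp only [bot_eq_zero']; nlinarith)]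
  intro a ha
  rw [mem_range] at ha
  obtain ⟨b, hb⟩ : ∃ b, a + b = 4 * (N + 1) := ⟨4 * (N + 1) - a, by omega⟩
  have e : 4 * (N + 1) - a = b := by omega
  rw [e]
  have h3 : 2 * ((2 - 1) * a / 2) ≤ a := by omega
  have h4 : (4 : ℤ) * a * b + 2 * a < 4 * (N + 1) * (4 * (N + 1) + 2) := by
    have hb' : (b : ℤ) = 4 * (N + 1) - a := by omega
    rw [hb']
    nlinarith [sq_nonneg ((a : ℤ) - 2 * (N + 1)), sq_nonneg ((a : ℤ) - 2 * (N + 1) - 1)]
  zify at h2 h3 ⊢
  nlinarith

end Pool.Agent.Results.MP_6784b8_co.DoubleBroom
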